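import Pool.Agent.Lib_helper40.MC.T10k.Q
import Pool.Agent.Lib_helper40.MC.T10k.T

/-!
# c10k: all checks
-/

set_option autoImplicit false
set_option maxRecDepth 100000

namespace Pool.Agent.MC10k

open Pool.Agent.KC72 Pool.Agent.MC

theorem c10k_0 : Num c10k c10k_t := by decide +kernel

theorem c10k_om : xm c10k.kb c10k.ko (c10k.m * c10k.N) c10k.Om = true := by decide +kernel

theorem c10k_b : cB c10k = true := by decide +kernel

theorem c10k_r0 : blk (cR c10k) c10k.rels 60 0 = true := by decide +kernel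

theorem c10k_r1 : blk (cR c10k) c10k.rels 60 1 = true := by decide +kernel

theorem c10k_r2 : blk (cR c10k) c10k.rels 60 2 = true := by decide +kernel

theorem c10k_r' : ∀ k < 3, blk (cR c10k) c10k.rels 60 k = true
  | 0, _ => c10k_r0
  | 1, _ => c10k_r1
  | 2, _ => c10k_r2
  | k + 3, h => absurd h (by omega)

theorem c10k_g : allI (fun c g => cG c10k.DG c10k_t.B c10k_t.MA c10k_t.P2 c10k_t.MB c g) c10k.G 0 = true := by decide +kernel

theorem c10k_g' : c10k.toCert.chk3' = true := by decide +kernel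

theorem c10k_k1 : (c10k.cls.take c10k.m).map (prF c10k_t.p c10k.n c10k.r) = c10k_t.PR := by decide +kernel

theorem c10k_k2 : (c10k.cls.take c10k.m).map (pkw (Int.ofNat c10k_t.Z) (Int.ofNat (Nat.pow c10k_t.Z c10k.n)) c10k.r) = c10k_t.PM := by decide +kernel

theorem c10k_k3 : c10k_t.P2.map (fun x => pmb (Int.ofNat c10k_t.B) x.1 x.2 (c10k.cls.take c10k.m)) = c10k_t.MB := by decide +kernel

theorem c10k_e : c10k.cls.all (fun e => bdE c10k_t.MA c10k.n e.1.2 && bdE c10k_t.MA c10k.n e.2.2) = true := by decide +kernel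

theorem c10k_xq : c10k_t.XQ.all (fun X => X.all (xm c10k_t.a c10k_t.d c10k_t.S)) = true := by decide +kernel

theorem c10k_xt : c10k_t.XT.all (fun X => X.all (xm c10k_t.a' c10k_t.d' c10k_t.K)) = true := by decide +kernel

/-- all checks -/
theorem c10k_ok : ROk c10k :=
  rOk_of (A := c10k_t) (l4 := 60) (n4 := 3) (lQ := 40) (nQ := 5) (lT := 40) (nT := 5) c10k_0 c10k_om c10k_b
    (by decide) (by decide +kernel) c10k_r' c10k_g c10k_g' ⟨c10k_k1, c10k_k2, c10k_k3⟩ c10k_e c10k_xq c10k_xt (by decide) (by decide +kernel) c10k_q'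
    (by decide) (by decide +kernel) c10k_t'

end Pool.Agent.MC10k
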